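import Pool.Agent.T2H43.WQ.Main

/-!
# A primitive ideal of `U(W)` and of `U(Vir)` that is not the kernel of a map to `F[t, t⁻¹, ∂] ⊗ A_n`

Let `F` be a field of characteristic zero and let `g` be the Witt algebra `W` or the Virasoro algebra.
There is a primitive ideal `Q` of `U(g)` which is the kernel of an algebra map to the algebra
`F[t_0, t_0⁻¹, ∂_0] ⊗ F[t_1, t_1⁻¹, ∂_1]` of differential operators on a two-dimensional torus, but which is
not the kernel of any algebra map to `F[t, t⁻¹, ∂] ⊗ A_{k-1}`, for any `k ≥ 1`.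

Idea (see `Pool/Agent/T2H43/WQ`).  `Q` is the kernel of
`e_n ↦ t_0^(n+1) ∂_0 + (t_1^(n+1) ∂_1 - n t_1^n)` (tensor densities at two points, of different weights).
* `Q` is the annihilator of the module `F[X_0, X_1]` on which `t_0` and `t_1` act by the shifts of the
  variables, times `1` and `-1`, and `- t_i ∂_i` as the multiplication by `X_i`.  This module is simple
  over `g`: the two points are separated by the two different characters, and at each point one
  argues with the degree.
* In the quotient by `Q`, a difference of products of three `e_n` (the same for all labels) takes the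
  values `G(i, j) = 4 (t_1 - t_0)^6 t_1^(i+2) t_0^j (- t_0 ∂_0)`, for all integers `i, j`, and so
  `G(i,j) G(-i,-j) = (1 - j) G(0,0)^2 + j G(0,1) G(0,-1)`.
* Suppose `Q` is the kernel of a map to `F[t, t⁻¹, ∂] ⊗ A_n`, and let `H(i,j)` be the image of an element
  as above.  The total degree of symbols (in `∂`, the `s_i` and the `∂_i`, over the Laurent polynomials
  in `t`) is multiplicative, so the identity bounds the degree of `H(i,j)` by a constant.  The range of
  the exponents of `t` in `H(i,j)` grows at most linearly with `|i| + |j|`, because this holds for the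
  images of the `e_n`.  So about `N^2` linearly independent elements lie in a space of dimension
  `O(N)`, a contradiction.
-/

set_option autoImplicit false

namespace Pool.Agent.Results.MP_4da284_al.TwoPoint

open Pool.Agent.T2H43.WQ

/-- `L` is the Witt algebra `W = F[t, t⁻¹] ∂`: it has a basis `e_n = t^(n+1) ∂`, `n ∈ ℤ`, with
`[e_m, e_n] = (n - m) e_{m + n}`. -/
def IsWitt (F : Type) [Field F] (L : Type) [LieRing L] [LieAlgebra F L] : Prop :=
  ∃ e : Module.Basis ℤ F L, ∀ m n : ℤ, ⁅e m, e n⁆ = ((n - m : ℤ) : F) • e (m + n)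

/-- `L` is the Virasoro algebra `Vir`: it has a basis consisting of `e_n = e (some n)`, `n ∈ ℤ`, and
`z = e none`, with `z` central and
`[e_m, e_n] = (n - m) e_{m + n} + δ_{m + n, 0} (m ^ 3 - m) / 12 z`. -/
def IsVirasoro (F : Type) [Field F] (L : Type) [LieRing L] [LieAlgebra F L] : Prop :=
  ∃ e : Module.Basis (Option ℤ) F L, (∀ x : L, ⁅e none, x⁆ = 0) ∧
    ∀ m n : ℤ, ⁅e (some m), e (some n)⁆ = ((n - m : ℤ) : F) • e (some (m + n)) +
      (if m + n = 0 then (((m : F) ^ 3 - (m : F)) / 12) • e none else 0)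

/-- A two-sided ideal `P` is primitive if it is the annihilator of a simple left module. -/
def IsPrimitive {U : Type} [Ring U] (P : TwoSidedIdeal U) : Prop :=
  ∃ (M : Type) (_ : AddCommGroup M) (_ : Module U M), IsSimpleModule U M ∧
    ∀ a : U, a ∈ P ↔ ∀ x : M, a • x = 0

/-- The ideal `P` is the kernel of an algebra map to `B`. -/
def IsKernelTo (F : Type) [Field F] {U : Type} [Ring U] [Algebra F U] (P : TwoSidedIdeal U)
    (B : Type) [Ring B] [Algebra F B] : Prop :=
  ∃ φ : U →ₐ[F] B, ∀ a : U, a ∈ P ↔ φ a = 0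

/-- Let `F` be a field of characteristic zero and let `L` be the Witt algebra or the Virasoro algebra
over `F`.  There is a primitive ideal `Q` of `U(L)` that is the kernel of an algebra map to
`F[t_0, t_0⁻¹, ∂_0] ⊗ F[t_1, t_1⁻¹, ∂_1]`, but for no `k ≥ 1` the kernel of an algebra map to
`F[t, t⁻¹, ∂] ⊗ A_{k-1}`. -/
theorem result (F : Type) [Field F] [CharZero F] (L : Type) [LieRing L] [LieAlgebra F L]
    (hL : IsWitt F L ∨ IsVirasoro F L) :
    ∃ Q : TwoSidedIdeal (UniversalEnvelopingAlgebra F L), IsPrimitive Q ∧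
      IsKernelTo F Q (L2 F) ∧ ∀ k : ℕ, 1 ≤ k → ¬ IsKernelTo F Q (LW F (k - 1)) := by
  have h : ∃ (x : ℤ → UniversalEnvelopingAlgebra F L)
      (ψ : UniversalEnvelopingAlgebra F L →ₐ[F] L2 F), (∀ m, ψ (x m) = eps F m) ∧
      ∀ m k : ℤ, m + k ≠ 0 → x m * x k - x k * x m = ((k - m : ℤ) : F) • x (m + k) := by
    rcases hL with ⟨e, he⟩ | ⟨e, hz, he⟩
    · exact witt_data e he
    · exact vir_data e hz he
  obtain ⟨x, ψ, hψ, hx⟩ := h
  obtain ⟨Q, hQ1, hQ2, hQ3⟩ := core x ψ hψ hx
  exact ⟨Q, hQ1, ⟨ψ, hQ2⟩, fun k _ h => by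
    obtain ⟨φ, hφ⟩ := h
    exact hQ3 (k - 1) φ hφ⟩

end Pool.Agent.Results.MP_4da284_al.TwoPoint
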